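import Pool.Agent.KS6_33.LE.LG

/-! # Lenstra's density for the groups generated by `W₀` and the members of exponentially sparse families

Let `a` be a fixed integer with `|a| ≥ 2` and `P` a polynomial with integer coefficients that has a simple nonzero
complex zero, for instance `P = T + 1`. The theorem gives the density of Q1 for ALL `(F, C, k)` and for almost all the
groups `W = ⟨W₀, n⟩` with `n = P(c a ^ j)` (`j < K`), where `W₀` is an arbitrary finitely generated group: for every `x`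
with `X ≤ x ≤ K ^ (1 / (1 + κ))` the number of primes `q ≤ x` in the set of Q1 is `δ(F, C, W, k) π(x)` up to `ε π(x)`.
The family up to `N` has only about `log N` elements. The exceptional set is so small (any power of `log X` is saved)
that the exponents `j` may be restricted to the primes.

Proof: the local conditions (power residue conditions for prime powers) are expanded in characters modulo `q`; their
correlations along `k ↦ P(c a ^ j)` are bounded by Weil's bound for mixed sums and the size of the order of `a`, as in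
our result on Artin's conjecture. New here: Lenstra's density for the group `⟨W₀, n⟩` is compared with the mean of the
local densities. For this `n` need not have a prime factor exactly once (nothing is known about this for the values of
`P` in sparse sequences); it is enough that `n` is not in finitely many classes `g ℚ ^ l` and not a perfect `l`-th power
for the primes `l ≤ K ^ (1 / 3)`, which follows for almost all `j` from the same second moment and from a gap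
principle for the perfect powers in the family. -/

set_option autoImplicit false

namespace Pool.Agent.Results.MP_48b1c3_nt.ExponentialGroups

open NumberField Finset Filter Topology

/-- the number of primes `q ≤ x` in the set of Q1 -/
noncomputable def S (F : IntermediateField ℚ (AlgebraicClosure ℚ)) [NumberField F]
    (C : Set (F ≃ₐ[ℚ] F)) (W : Subgroup ℚˣ) (k x : ℕ) : ℕ :=
  Nat.card {q : ℕ // q ≤ x ∧ q.Prime ∧
    (∃ σ ∈ C, ∃ Q : Ideal (𝓞 F), Q.IsPrime ∧
        Q.comap (algebraMap ℤ (𝓞 F)) = Ideal.span {(q : ℤ)} ∧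
        ∀ a b : 𝓞 F, (b : F) = σ (a : F) → b - a ^ q ∈ Q) ∧
    (∀ w ∈ W, padicValRat q (w : ℚ) = 0) ∧
    (Subgroup.closure {u : (ZMod q)ˣ | ∃ w ∈ W,
        (((w : ℚ).num : ℤ) : ZMod q) = (u : ZMod q) * (((w : ℚ).den : ℕ) : ZMod q)}).index ∣ k}

/-- Lenstra's density -/
noncomputable def δ (F : IntermediateField ℚ (AlgebraicClosure ℚ)) [NumberField F]
    (C : Set (F ≃ₐ[ℚ] F)) (W : Subgroup ℚˣ) (k : ℕ) : ℝ :=
  ∑' n : ℕ, (ArithmeticFunction.moebius n : ℝ) *
    (Nat.card {σ : F ≃ₐ[ℚ] F // σ ∈ C ∧ ∀ y : F,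
        (y : AlgebraicClosure ℚ) ∈ IntermediateField.adjoin ℚ
          {z : AlgebraicClosure ℚ | ∃ w ∈ W,
            z ^ (∏ l ∈ n.primeFactors, l ^ (k.factorization l + 1)) =
              algebraMap ℚ (AlgebraicClosure ℚ) (w : ℚ)} → σ y = y} : ℝ) /
    (Module.finrank ℚ ↥(F ⊔ IntermediateField.adjoin ℚ
          {z : AlgebraicClosure ℚ | ∃ w ∈ W,
            z ^ (∏ l ∈ n.primeFactors, l ^ (k.factorization l + 1)) =
              algebraMap ℚ (AlgebraicClosure ℚ) (w : ℚ)}) : ℝ)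

/-- the group generated by `W₀` and `n` -/
def Wn (W₀ : Subgroup ℚˣ) (n : ℤ) : Subgroup ℚˣ :=
  W₀ ⊔ Subgroup.closure {w : ℚˣ | (w : ℚ) = (n : ℚ)}

/-- the formula of Q1 for `W = ⟨W₀, n⟩` and the primes up to `x`, with an error of at most `ε π(x)`;
`n ≠ 0, 1, -1` -/
def Law (F : IntermediateField ℚ (AlgebraicClosure ℚ)) [NumberField F] (C : Set (F ≃ₐ[ℚ] F))
    (W₀ : Subgroup ℚˣ) (k : ℕ) (ε : ℝ) (n : ℤ) (x : ℕ) : Prop :=
  1 < |n| ∧ |(S F C (Wn W₀ n) k x : ℝ) - δ F C (Wn W₀ n) k * (Nat.primeCounting x : ℝ)| ≤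
    ε * (Nat.primeCounting x : ℝ)

lemma Wn_eq (W₀ : Subgroup ℚˣ) {n : ℤ} (hn : 1 < |n|) :
    Wn W₀ n = W₀ ⊔ Subgroup.zpowers (Pool.Agent.KS6_33.LE.Uz n) := by
  have hn0 : n ≠ 0 := by
    rintro rfl
    simp at hn
  unfold Wn
  congr 1
  rw [Subgroup.zpowers_eq_closure]
  congr 1
  ext w
  rw [Set.mem_ofPred_eq, Set.mem_singleton_iff, ← Pool.Agent.KS6_33.LE.Uz_val hn0, Units.val_inj]

lemma Law_of (F : IntermediateField ℚ (AlgebraicClosure ℚ)) [NumberField F] [IsGalois ℚ F]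
    (C : Set (F ≃ₐ[ℚ] F)) (W₀ : Subgroup ℚˣ) (k : ℕ) (ε : ℝ) (n : ℤ) (x : ℕ)
    (h : Pool.Agent.KS6_33.LE.LL F C W₀ k ε n x) : Law F C W₀ k ε n x := by
  refine ⟨h.1, ?_⟩
  rw [Wn_eq W₀ h.1]
  exact h.2

/-- **Theorem.** Let `a` be an integer, `|a| ≥ 2`, and `P` a polynomial with integer coefficients that has a simple
nonzero complex zero. Let `F` be a finite Galois extension of `ℚ`, `C` a union of conjugacy classes, `W₀` a finitely
generated subgroup of `ℚˣ`, `k ≥ 1`, and `ε, κ > 0`. For every natural number `B` there are `c₁` and `X₀` such that for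
all `X ≥ X₀`, all `K` and all integers `c ≠ 0` with at most `√X` prime factors and `|c| ≤ 2 ^ K`, all but at most
`c₁ K / (log X) ^ B` of the exponents `j < K` satisfy: `n = P(c a ^ j)` is not `0, 1, -1`, and the formula of Q1 holds for
`W = ⟨W₀, n⟩`, up to `ε π(x)`, for EVERY `x` with `X ≤ x` and `x ^ (1 + κ) ≤ K`. Hence for every `c ≠ 0` the share of the
primes `ℓ < K` for which this fails for `n = P(c a ^ ℓ)` at some `x` with `exp ((log K) ^ κ) ≤ x` and `x ^ (1 + κ) ≤ K`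
tends to `0`. -/
theorem result (a : ℤ) (ha : 2 ≤ |a|) (P : Polynomial ℤ)
    (hP : ∃ z : ℂ, z ≠ 0 ∧ Polynomial.aeval z P = 0 ∧ Polynomial.aeval z (Polynomial.derivative P) ≠ 0)
    (F : IntermediateField ℚ (AlgebraicClosure ℚ)) [NumberField F] [IsGalois ℚ F]
    (C : Set (F ≃ₐ[ℚ] F)) (hC : ∀ σ ∈ C, ∀ τ : F ≃ₐ[ℚ] F, τ * σ * τ⁻¹ ∈ C)
    (W₀ : Subgroup ℚˣ) (hW₀ : W₀.FG) (k : ℕ) (hk : 0 < k) (ε κ : ℝ) (hε : 0 < ε) (hκ : 0 < κ) :
    (∀ B : ℕ, ∃ (c₁ : ℝ) (X₀ : ℕ), ∀ (X K : ℕ) (c : ℤ), X₀ ≤ X → c ≠ 0 →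
      (c.natAbs.primeFactors.card : ℝ) ≤ Real.sqrt X → c.natAbs ≤ 2 ^ K →
      (Nat.card {j : ℕ // j < K ∧ ¬ ∀ x : ℕ, X ≤ x → (x : ℝ) ^ (1 + κ) ≤ K →
        Law F C W₀ k ε (P.eval (c * a ^ j)) x} : ℝ) ≤ c₁ * (K / (Real.log X) ^ B)) ∧
    ∀ c : ℤ, c ≠ 0 → Tendsto (fun K : ℕ =>
      (Nat.card {l : ℕ // l < K ∧ l.Prime ∧ ¬ ∀ x : ℕ, Real.exp ((Real.log K) ^ κ) ≤ x →
        (x : ℝ) ^ (1 + κ) ≤ K → Law F C W₀ k ε (P.eval (c * a ^ l)) x} : ℝ) /
          (Nat.primeCounting K : ℝ)) atTop (𝓝 0) := by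
  classical
  obtain ⟨z, hz, h0, h1⟩ := hP
  have hmain := fun B : ℕ => Pool.Agent.KS6_33.LE.len_exp a ha P z hz h0 h1 F C W₀ k hC hW₀ hk.ne' B ε κ hε hκ
  constructor
  · intro B
    obtain ⟨c₁, X₀, hc₁, hX₀, h⟩ := hmain B
    refine ⟨c₁, X₀, fun X K c hX hc hcX hcK => ?_⟩
    obtain ⟨E, hE⟩ : ∃ E : Finset ℕ, E = (range K).filter (fun j => ¬ ∀ x : ℕ, X ≤ x →
      (x : ℝ) ^ (1 + κ) ≤ K → Law F C W₀ k ε (P.eval (c * a ^ j)) x) := ⟨_, rfl⟩
    have hcard : Nat.card {j : ℕ // j < K ∧ ¬ ∀ x : ℕ, X ≤ x → (x : ℝ) ^ (1 + κ) ≤ K →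
        Law F C W₀ k ε (P.eval (c * a ^ j)) x} = E.card := by
      apply Nat.subtype_card
      intro j
      rw [hE, mem_filter, mem_range]
    rw [hcard]
    refine h X K c hX hc hcX hcK E (by rw [hE]; exact filter_subset _ _) fun j hj => ?_
    rw [hE, mem_filter] at hj
    have h2 := hj.2
    push Not at h2
    obtain ⟨x, hx1, hx2, hx3⟩ := h2
    exact ⟨x, hx1, hx2, fun h3 => hx3 (Law_of F C W₀ k ε _ x h3)⟩
  · intro c hc
    refine Pool.Agent.KS6_33.LE.primes_of_few2 κ hκ (c.natAbs.primeFactors.card : ℝ) c.natAbs _ ?_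
    intro B
    obtain ⟨c₁, X₀, hc₁, hX₀, h⟩ := hmain B
    refine ⟨c₁, X₀, hc₁, fun X K hX hK hcX hx => ?_⟩
    obtain ⟨E, hE⟩ : ∃ E : Finset ℕ, E = (range K).filter (fun l => l.Prime ∧ ¬ ∀ x : ℕ,
      Real.exp ((Real.log K) ^ κ) ≤ x → (x : ℝ) ^ (1 + κ) ≤ K →
        Law F C W₀ k ε (P.eval (c * a ^ l)) x) := ⟨_, rfl⟩
    have hcard : Nat.card {l : ℕ // l < K ∧ l.Prime ∧ ¬ ∀ x : ℕ, Real.exp ((Real.log K) ^ κ) ≤ x →
        (x : ℝ) ^ (1 + κ) ≤ K → Law F C W₀ k ε (P.eval (c * a ^ l)) x} = E.card := by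
      apply Nat.subtype_card
      intro j
      rw [hE, mem_filter, mem_range]
    rw [hcard]
    have hcK : c.natAbs ≤ 2 ^ K := hK.trans Nat.lt_two_pow_self.le
    refine h X K c hX hc hcX hcK E (by rw [hE]; exact filter_subset _ _) fun j hj => ?_
    rw [hE, mem_filter] at hj
    have h2 := hj.2.2
    push Not at h2
    obtain ⟨x, hx1, hx2, hx3⟩ := h2
    exact ⟨x, hx x hx1, hx2, fun h3 => hx3 (Law_of F C W₀ k ε _ x h3)⟩

end Pool.Agent.Results.MP_48b1c3_nt.ExponentialGroups
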