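import Pool.Agent.KS6_33.PG.PF

/-! # Lenstra's density for the groups generated by `W₀` and the members of the families `P(c (b + q j) ^ r)`,
uniformly in `r`

Let `P` be a polynomial with integer coefficients that has a simple nonzero complex zero, for instance `P = T - 1`. The
theorem gives the density of Q1 for ALL `(F, C, k)` and for almost all the groups `W = ⟨W₀, n⟩` with
`n = P(c (b + q j) ^ r)` (`j < N`), where `W₀` is an arbitrary finitely generated group, UNIFORMLY in the exponent `r`,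
which may be as large as `2 ^ (N ^ c₀)`: for every `x` with `X ≤ x ≤ N ^ (1 / (2 + κ))` the number of primes `p ≤ x` in
the set of Q1 is `δ(F, C, W, k) π(x)` up to `ε π(x)`. The number of exceptions is `O(N / X ^ κ)`, so `j` may be
restricted to the primes.

Proof: the local conditions (power residue conditions for prime powers) are expanded in characters modulo `p`; the mean
over `r`-th powers is a sum over the `gcd(r, p - 1)` characters of order dividing `r` of mixed Weil sums. New here: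
Lenstra's density for the group `⟨W₀, n⟩` is compared with the mean of the local densities although `n` may be as large
as `exp exp (N ^ c₀)`, so that nothing elementary excludes that `n` is a perfect `l`-th power for many `l`. All primes
`l ≤ N ^ c₁` except at most one are excluded by a second moment over the primes `p ≡ 1 (mod l)`, `p ≤ N ^ (1/4)`, which
are many by a Linnik type theorem (with an exceptional modulus); the larger ones are few for each `n` (at most `N ^ c₀`),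
and their contribution is bounded by a product over them. -/

set_option autoImplicit false

namespace Pool.Agent.Results.MP_48b1c3_nt.LargePowerGroups

open NumberField Finset Filter Topology

/-- the number of primes `p ≤ x` in the set of Q1 -/
noncomputable def S (F : IntermediateField ℚ (AlgebraicClosure ℚ)) [NumberField F]
    (C : Set (F ≃ₐ[ℚ] F)) (W : Subgroup ℚˣ) (k x : ℕ) : ℕ :=
  Nat.card {q : ℕ // q ≤ x ∧ q.Prime ∧
    (∃ σ ∈ C, ∃ Q : Ideal (𝓞 F), Q.IsPrime ∧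
        Q.comap (algebraMap ℤ (𝓞 F)) = Ideal.span {(q : ℤ)} ∧
        ∀ a b : 𝓞 F, (b : F) = σ (a : F) → b - a ^ q ∈ Q) ∧
    (∀ w ∈ W, padicValRat q (w : ℚ) = 0) ∧
    (Subgroup.closure {u : (ZMod q)ˣ | ∃ w ∈ W,
        (((w : ℚ).num : ℤ) : ZMod q) = (u : ZMod q) * (((w : ℚ).den : ℕ) : ZMod q)}).index ∣ k}

/-- Lenstra's density -/
noncomputable def δ (F : IntermediateField ℚ (AlgebraicClosure ℚ)) [NumberField F]
    (C : Set (F ≃ₐ[ℚ] F)) (W : Subgroup ℚˣ) (k : ℕ) : ℝ :=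
  ∑' n : ℕ, (ArithmeticFunction.moebius n : ℝ) *
    (Nat.card {σ : F ≃ₐ[ℚ] F // σ ∈ C ∧ ∀ y : F,
        (y : AlgebraicClosure ℚ) ∈ IntermediateField.adjoin ℚ
          {z : AlgebraicClosure ℚ | ∃ w ∈ W,
            z ^ (∏ l ∈ n.primeFactors, l ^ (k.factorization l + 1)) =
              algebraMap ℚ (AlgebraicClosure ℚ) (w : ℚ)} → σ y = y} : ℝ) /
    (Module.finrank ℚ ↥(F ⊔ IntermediateField.adjoin ℚ
          {z : AlgebraicClosure ℚ | ∃ w ∈ W,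
            z ^ (∏ l ∈ n.primeFactors, l ^ (k.factorization l + 1)) =
              algebraMap ℚ (AlgebraicClosure ℚ) (w : ℚ)}) : ℝ)

/-- the group generated by `W₀` and `n` -/
def Wn (W₀ : Subgroup ℚˣ) (n : ℤ) : Subgroup ℚˣ :=
  W₀ ⊔ Subgroup.closure {w : ℚˣ | (w : ℚ) = (n : ℚ)}

/-- the formula of Q1 for `W = ⟨W₀, n⟩` and the primes up to `x`, with an error of at most `ε π(x)`;
`n ≠ 0, 1, -1` -/
def Law (F : IntermediateField ℚ (AlgebraicClosure ℚ)) [NumberField F] (C : Set (F ≃ₐ[ℚ] F))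
    (W₀ : Subgroup ℚˣ) (k : ℕ) (ε : ℝ) (n : ℤ) (x : ℕ) : Prop :=
  1 < |n| ∧ |(S F C (Wn W₀ n) k x : ℝ) - δ F C (Wn W₀ n) k * (Nat.primeCounting x : ℝ)| ≤
    ε * (Nat.primeCounting x : ℝ)

lemma Wn_eq (W₀ : Subgroup ℚˣ) {n : ℤ} (hn : 1 < |n|) :
    Wn W₀ n = W₀ ⊔ Subgroup.zpowers (Pool.Agent.KS6_33.LE.Uz n) := by
  have hn0 : n ≠ 0 := by
    rintro rfl
    simp at hn
  unfold Wn
  congr 1
  rw [Subgroup.zpowers_eq_closure]
  congr 1
  ext w
  rw [Set.mem_ofPred_eq, Set.mem_singleton_iff, ← Pool.Agent.KS6_33.LE.Uz_val hn0, Units.val_inj]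

lemma Law_of (F : IntermediateField ℚ (AlgebraicClosure ℚ)) [NumberField F] [IsGalois ℚ F]
    (C : Set (F ≃ₐ[ℚ] F)) (W₀ : Subgroup ℚˣ) (k : ℕ) (ε : ℝ) (n : ℤ) (x : ℕ)
    (h : Pool.Agent.KS6_33.LE.LL F C W₀ k ε n x) : Law F C W₀ k ε n x := by
  refine ⟨h.1, ?_⟩
  rw [Wn_eq W₀ h.1]
  exact h.2

/-- **Theorem.** There is an absolute constant `c₀ > 0` with the following property. Let `P` be a polynomial with
integer coefficients that has a simple nonzero complex zero, `F` a finite Galois extension of `ℚ`, `C` a union of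
conjugacy classes, `W₀` a finitely generated subgroup of `ℚˣ`, `k ≥ 1`, `ε > 0` and `0 < κ ≤ c₀`. There are `c₁` and
`X₀` such that for all `X ≥ X₀`, all `N` and `H ≤ N ^ c₀`, all exponents `1 ≤ r ≤ 2 ^ H` with at most `X ^ c₀` divisors
and all integers `b`, `c ≠ 0`, `q ≠ 0` with `|b|, |c|, |q| ≤ 2 ^ 2 ^ H`, where `c` and `q` have at most `X ^ c₀` prime
factors, all but at most `c₁ N / X ^ κ` of the `j < N` satisfy: `n = P(c (b + q j) ^ r)` is not `0, 1, -1`, and the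
formula of Q1 holds for `W = ⟨W₀, n⟩`, up to `ε π(x)`, for EVERY `x` with `X ≤ x` and `x ^ (2 + κ) ≤ N`. Hence for every
`c ≠ 0` and every function `r` with `1 ≤ r(N) ≤ 2 ^ ⌊N ^ c₀⌋` and `r(N)` having at most `(log N) ^ 2` divisors for all
large `N`, the share of the primes `l < N` for which this fails for `n = P(c l ^ r(N))` at some `x` with
`(log N) ^ (2 / κ) ≤ x` and `x ^ (2 + κ) ≤ N` tends to `0`. -/
theorem result : ∃ c₀ : ℝ, 0 < c₀ ∧ ∀ (P : Polynomial ℤ),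
    (∃ z : ℂ, z ≠ 0 ∧ Polynomial.aeval z P = 0 ∧ Polynomial.aeval z (Polynomial.derivative P) ≠ 0) →
    ∀ (F : IntermediateField ℚ (AlgebraicClosure ℚ)) [NumberField F] [IsGalois ℚ F] (C : Set (F ≃ₐ[ℚ] F)),
    (∀ σ ∈ C, ∀ τ : F ≃ₐ[ℚ] F, τ * σ * τ⁻¹ ∈ C) → ∀ (W₀ : Subgroup ℚˣ), W₀.FG → ∀ (k : ℕ), 0 < k →
    ∀ (ε κ : ℝ), 0 < ε → 0 < κ → κ ≤ c₀ →
    (∃ (c₁ : ℝ) (X₀ : ℕ), ∀ (X N r H : ℕ) (b c q : ℤ), X₀ ≤ X → 1 ≤ r → c ≠ 0 → q ≠ 0 →
      (r.divisors.card : ℝ) ≤ (X : ℝ) ^ c₀ → (c.natAbs.primeFactors.card : ℝ) ≤ (X : ℝ) ^ c₀ →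
      (q.natAbs.primeFactors.card : ℝ) ≤ (X : ℝ) ^ c₀ → r ≤ 2 ^ H → b.natAbs ≤ 2 ^ (2 ^ H) →
      c.natAbs ≤ 2 ^ (2 ^ H) → q.natAbs ≤ 2 ^ (2 ^ H) → (H : ℝ) ≤ (N : ℝ) ^ c₀ →
      (Nat.card {j : ℕ // j < N ∧ ¬ ∀ x : ℕ, X ≤ x → (x : ℝ) ^ (2 + κ) ≤ N →
        Law F C W₀ k ε (P.eval (c * (b + q * (j : ℤ)) ^ r)) x} : ℝ) ≤ c₁ * (N / (X : ℝ) ^ κ)) ∧
    ∀ c : ℤ, c ≠ 0 → ∀ r : ℕ → ℕ, (∀ᶠ N : ℕ in atTop, 1 ≤ r N ∧ r N ≤ 2 ^ ⌊(N : ℝ) ^ c₀⌋₊ ∧
        ((r N).divisors.card : ℝ) ≤ (Real.log N) ^ 2) →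
      Tendsto (fun N : ℕ =>
      (Nat.card {l : ℕ // l < N ∧ l.Prime ∧ ¬ ∀ x : ℕ, (Real.log N) ^ (2 / κ) ≤ x →
        (x : ℝ) ^ (2 + κ) ≤ N → Law F C W₀ k ε (P.eval (c * (l : ℤ) ^ r N)) x} : ℝ) /
          (Nat.primeCounting N : ℝ)) atTop (𝓝 0) := by
  classical
  obtain ⟨c₀, hc0, hc4, hmain⟩ := Pool.Agent.KS6_33.PG.len_pow
  refine ⟨c₀, hc0, ?_⟩
  intro P hP F _ _ C hC W₀ hW₀ k hk ε κ hε hκ hκc
  obtain ⟨z, hz, h0, h1⟩ := hP
  obtain ⟨c₁, X₀, hc₁, h⟩ := hmain P z hz h0 h1 F C W₀ k hC hW₀ hk.ne' ε κ hε hκ hκc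
  constructor
  · refine ⟨c₁, X₀, fun X N r H b c q hX hr hc hq hτ hωc hωq hrH hbH hcH hqH hHN => ?_⟩
    obtain ⟨E, hE⟩ : ∃ E : Finset ℕ, E = (range N).filter (fun j : ℕ => ¬ ∀ x : ℕ, X ≤ x →
      (x : ℝ) ^ (2 + κ) ≤ N → Law F C W₀ k ε (P.eval (c * (b + q * (j : ℤ)) ^ r)) x) := ⟨_, rfl⟩
    have hcard : Nat.card {j : ℕ // j < N ∧ ¬ ∀ x : ℕ, X ≤ x → (x : ℝ) ^ (2 + κ) ≤ N →
        Law F C W₀ k ε (P.eval (c * (b + q * (j : ℤ)) ^ r)) x} = E.card := by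
      apply Nat.subtype_card
      intro j
      rw [hE, mem_filter, mem_range]
    rw [hcard]
    refine h X N r H b c q hX (by omega) hc hq hτ hωc hωq hrH hbH hcH hqH hHN E
      (by rw [hE]; exact filter_subset _ _) fun j hj => ?_
    rw [hE, mem_filter] at hj
    have h2 := hj.2
    push Not at h2
    obtain ⟨x, hx1, hx2, hx3⟩ := h2
    exact ⟨x, hx1, hx2, fun h3 => hx3 (Law_of F C W₀ k ε _ x h3)⟩
  · intro c hc r hr
    have hfl : Tendsto (fun N : ℕ => ⌊(N : ℝ) ^ c₀⌋₊) atTop atTop :=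
      tendsto_nat_floor_atTop.comp ((tendsto_rpow_atTop hc0).comp tendsto_natCast_atTop_atTop)
    refine Pool.Agent.KS6_33.PG.primes_of_pg c₀ κ hκ hκc c₁ (X₀ + 1) hc₁ (c.natAbs.primeFactors.card : ℝ) _
      (fun N => (1 ≤ r N ∧ r N ≤ 2 ^ ⌊(N : ℝ) ^ c₀⌋₊ ∧ ((r N).divisors.card : ℝ) ≤ (Real.log N) ^ 2) ∧
        c.natAbs ≤ ⌊(N : ℝ) ^ c₀⌋₊) (hr.and (hfl.eventually_ge_atTop c.natAbs)) ?_
    intro X N hX hgood hlogX hωX hX2
    obtain ⟨⟨hr1, hr2, hr3⟩, hcN⟩ := hgood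
    obtain ⟨E, hE⟩ : ∃ E : Finset ℕ, E = (range N).filter (fun l : ℕ => l.Prime ∧ ¬ ∀ x : ℕ,
      (Real.log N) ^ (2 / κ) ≤ x → (x : ℝ) ^ (2 + κ) ≤ N → Law F C W₀ k ε (P.eval (c * (l : ℤ) ^ r N)) x) :=
      ⟨_, rfl⟩
    have hcard : Nat.card {l : ℕ // l < N ∧ l.Prime ∧ ¬ ∀ x : ℕ, (Real.log N) ^ (2 / κ) ≤ x →
        (x : ℝ) ^ (2 + κ) ≤ N → Law F C W₀ k ε (P.eval (c * (l : ℤ) ^ r N)) x} = E.card := by
      apply Nat.subtype_card
      intro j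
      rw [hE, mem_filter, mem_range]
    rw [hcard]
    have hXpos : (1 : ℝ) ≤ X := by exact_mod_cast (by omega : 1 ≤ X)
    have h22 : ∀ m : ℕ, m ≤ 2 ^ (2 ^ m) := fun m =>
      (Nat.lt_two_pow_self (n := m)).le.trans (Nat.pow_le_pow_right (by norm_num) Nat.lt_two_pow_self.le)
    refine h X N (r N) ⌊(N : ℝ) ^ c₀⌋₊ 0 c 1 (by omega) (by omega) hc one_ne_zero (hr3.trans hlogX) hωX
      (by simpa using (Real.rpow_nonneg (Nat.cast_nonneg X) c₀)) hr2 (by simp)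
      (hcN.trans (h22 _)) (by simpa using Nat.one_le_two_pow) (Nat.floor_le (by positivity)) E
      (by rw [hE]; exact filter_subset _ _) fun j hj => ?_
    rw [hE, mem_filter] at hj
    have h2 := hj.2.2
    push Not at h2
    obtain ⟨x, hx1, hx2, hx3⟩ := h2
    refine ⟨x, hX2 x hx1, hx2, fun h3 => hx3 ?_⟩
    rw [zero_add, one_mul] at h3
    exact Law_of F C W₀ k ε _ x h3

end Pool.Agent.Results.MP_48b1c3_nt.LargePowerGroups
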