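import Mathlib
import Pool.Agent.KS6_18.Rel

set_option autoImplicit false

/-! # Lenstra's density for the groups `⟨W₀, D n ^ r⟩`, all but `N ^ θ` squarefree `n ≤ N`, every `θ > 0`

Let `θ, ε > 0`, `0 < C₁ ≤ C₂`, let `D` be a nonzero integer and `r ≥ 1`.  There is a set `E` of positive
integers with at most `N ^ θ` elements `≤ N` (for all large `N`), independent of the data
`(F, C, W₀, k)`, with the following property.  For every finite Galois extension `F / ℚ`, every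
conjugation-stable `C`, every finitely generated `W₀ ≤ ℚˣ`, and every `k ≥ 1` such that
`ℓ ^ (ν_ℓ(k) + 1)` divides `r` for all primes `ℓ ∣ k r` (for `k = 1`: every `r`), there is a set `X` with
at most `(log N) ^ A` elements `≤ N` such that for all squarefree `n ∉ X`, with `W = ⟨W₀, D n ^ r⟩` and
`S(x)` the number of primes `q ≤ x` in the set of Q1, and for EVERY `x` between `n ^ C₁` and `n ^ C₂`:

* `S(x) ≤ (δ(F, C, W, k) + ε) π(x)`;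
* if `n ∉ E`, then `S(x) ≥ (δ(F, C, W, k) - ε) π(x)`.

Libraries: helper18 (this run); helper401 (density theorem of Chebotarev), helper386, helper981,
helper171 (local counts). -/

namespace Pool.Agent.Results.MP_48b1c3_nt.SquarefreeAllX

open NumberField Finset Filter Classical
open Pool.Agent.W171.LG (gp_eqR)
open Pool.Agent.KS6_18 (len_rel Du)

/-- the number of primes `q ≤ x` in the set of Q1 -/
noncomputable def S (F : IntermediateField ℚ (AlgebraicClosure ℚ)) [NumberField F]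
    (C : Set (F ≃ₐ[ℚ] F)) (W : Subgroup ℚˣ) (k x : ℕ) : ℕ :=
  Nat.card {q : ℕ // q ≤ x ∧ q.Prime ∧
    (∃ σ ∈ C, ∃ Q : Ideal (𝓞 F), Q.IsPrime ∧
        Q.comap (algebraMap ℤ (𝓞 F)) = Ideal.span {(q : ℤ)} ∧
        ∀ a b : 𝓞 F, (b : F) = σ (a : F) → b - a ^ q ∈ Q) ∧
    (∀ w ∈ W, padicValRat q (w : ℚ) = 0) ∧
    (Subgroup.closure {u : (ZMod q)ˣ | ∃ w ∈ W,
        (((w : ℚ).num : ℤ) : ZMod q) = (u : ZMod q) * (((w : ℚ).den : ℕ) : ZMod q)}).index ∣ k}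

/-- Lenstra's density -/
noncomputable def δ (F : IntermediateField ℚ (AlgebraicClosure ℚ)) [NumberField F]
    (C : Set (F ≃ₐ[ℚ] F)) (W : Subgroup ℚˣ) (k : ℕ) : ℝ :=
  ∑' n : ℕ, (ArithmeticFunction.moebius n : ℝ) *
    (Nat.card {σ : F ≃ₐ[ℚ] F // σ ∈ C ∧ ∀ y : F,
        (y : AlgebraicClosure ℚ) ∈ IntermediateField.adjoin ℚ
          {z : AlgebraicClosure ℚ | ∃ w ∈ W,
            z ^ (∏ l ∈ n.primeFactors, l ^ (k.factorization l + 1)) =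
              algebraMap ℚ (AlgebraicClosure ℚ) (w : ℚ)} → σ y = y} : ℝ) /
    (Module.finrank ℚ ↥(F ⊔ IntermediateField.adjoin ℚ
          {z : AlgebraicClosure ℚ | ∃ w ∈ W,
            z ^ (∏ l ∈ n.primeFactors, l ^ (k.factorization l + 1)) =
              algebraMap ℚ (AlgebraicClosure ℚ) (w : ℚ)}) : ℝ)

/-- the group generated by `W₀` and `D n ^ r` -/
def Wn (W₀ : Subgroup ℚˣ) (D : ℤ) (r n : ℕ) : Subgroup ℚˣ :=
  W₀ ⊔ Subgroup.closure {w : ℚˣ | (w : ℚ) = (D : ℚ) * (n : ℚ) ^ r}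

theorem result (θ ε C₁ C₂ : ℝ) (hθ : 0 < θ) (hε : 0 < ε) (hC₁ : 0 < C₁) (hC₁₂ : C₁ ≤ C₂)
    (D : ℤ) (hD : D ≠ 0) (r : ℕ) (hr : r ≠ 0) :
    ∃ E : Set ℕ,
      (∃ N₀ : ℕ, ∀ N : ℕ, N₀ ≤ N → ({n : ℕ | n ≤ N ∧ n ∈ E}.ncard : ℝ) ≤ (N : ℝ) ^ θ) ∧
      ∀ (F : IntermediateField ℚ (AlgebraicClosure ℚ)) [NumberField F] [IsGalois ℚ F]
        (C : Set (F ≃ₐ[ℚ] F)) (W₀ : Subgroup ℚˣ) (k : ℕ),
        (∀ σ ∈ C, ∀ τ : F ≃ₐ[ℚ] F, τ * σ * τ⁻¹ ∈ C) → W₀.FG → k ≠ 0 →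
        (∀ l : ℕ, l.Prime → l ∣ k * r → l ^ (k.factorization l + 1) ∣ r) →
        ∃ (A N₀ : ℕ) (X : Set ℕ),
          (∀ N : ℕ, N₀ ≤ N → ({n : ℕ | n ≤ N ∧ n ∈ X}.ncard : ℝ) ≤ (Real.log N) ^ A) ∧
          ∀ n : ℕ, Squarefree n → n ∉ X →
            ∀ x : ℕ, (n : ℝ) ^ C₁ ≤ x → (x : ℝ) ≤ (n : ℝ) ^ C₂ →
              (S F C (Wn W₀ D r n) k x : ℝ) ≤
                (δ F C (Wn W₀ D r n) k + ε) * Nat.primeCounting x ∧
              (n ∉ E → (δ F C (Wn W₀ D r n) k - ε) * Nat.primeCounting x ≤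
                (S F C (Wn W₀ D r n) k x : ℝ)) := by
  obtain ⟨E, hE, hmain⟩ := len_rel θ ε C₁ C₂ hθ hε hC₁ hC₁₂ D hD r hr
  refine ⟨E, hE, fun F _ _ C W₀ k hC hW₀ hk hkr => ?_⟩
  obtain ⟨A, N₀, X, hX, hn⟩ := hmain F C W₀ k hC hW₀ hk hkr
  refine ⟨A, N₀, X, hX, fun n hsq hnX => ?_⟩
  have hn0 : n ≠ 0 := hsq.ne_zero
  have hW : Wn W₀ D r n =
      W₀ ⊔ Subgroup.zpowers (Pool.Agent.W171.LG.DR (Du D hD) r n) := by
    have h := gp_eqR W₀ (Du D hD) r hn0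
    exact h
  rw [hW]
  exact hn n hsq hnX

end Pool.Agent.Results.MP_48b1c3_nt.SquarefreeAllX
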